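import Pool.Agent.W610.HY.Stm4

set_option autoImplicit false

namespace Pool.Agent.W333.HY.HARN

open Pool.Agent.W610.HY Metric

theorem re_nonneg (p : Polynomial ℂ) (hp : ∀ z : ℂ, ‖z‖ = 1 → 0 ≤ (p.eval z).re) (w : ℂ)
    (hw : ‖w‖ < 1) : 0 ≤ (p.eval w).re := by
  have hd : DiffContOnCl ℂ (fun z : ℂ => Complex.exp (-(p.eval z))) (ball (0:ℂ) 1) := by
    apply Differentiable.diffContOnCl
    exact (p.differentiable.neg).cexp
  have h1 : ‖Complex.exp (-(p.eval w))‖ ≤ 1 := by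
    refine Complex.norm_le_of_forall_mem_frontier_norm_le (U := ball (0:ℂ) 1) isBounded_ball hd ?_ ?_
    · intro z hz
      rw [frontier_ball _ one_ne_zero, mem_sphere_zero_iff_norm] at hz
      rw [Complex.norm_exp]
      have := hp z hz
      simpa using this
    · apply subset_closure
      simpa using hw
  rw [Complex.norm_exp] at h1
  simpa using h1

theorem main : Pool.Agent.W610.HY.HARN := by
  intro p h0 hp w hw
  set m : ℝ := (p.eval 0).re with hm
  have hm0 : 0 ≤ m := re_nonneg p hp 0 (by simp)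
  have hp0 : p.eval 0 = (m : ℂ) := by
    apply Complex.ext
    · simp [hm]
    · simpa using h0
  have hw1 : 0 < 1 - ‖w‖ := by linarith
  have key : ∀ ε : ℝ, 0 < ε → ‖(m : ℂ) - p.eval w‖ ≤ 2 * (m + ε) * ‖w‖ / (1 - ‖w‖) := by
    intro ε hε
    refine Complex.borelCaratheodory_zero (f := fun z => (m : ℂ) - p.eval z) (M := m + ε) (R := 1)
      (by linarith) ?_ ?_ one_pos ?_ ?_
    · exact ((differentiable_const _).sub p.differentiable).differentiableOn
    · intro z hz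
      have := re_nonneg p hp z (by simpa using hz)
      simp
      linarith
    · simpa using hw
    · simp [hp0]
  have key2 : ‖(m : ℂ) - p.eval w‖ ≤ 2 * m * ‖w‖ / (1 - ‖w‖) := by
    apply le_of_forall_pos_le_add
    intro ε hε
    have h1 := key (ε * (1 - ‖w‖) / 2) (by positivity)
    have h2 : 2 * (m + ε * (1 - ‖w‖) / 2) * ‖w‖ / (1 - ‖w‖) =
        2 * m * ‖w‖ / (1 - ‖w‖) + ε * ‖w‖ := by
      field_simp
    rw [h2] at h1
    have h3 : ε * ‖w‖ ≤ ε := by nlinarith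
    linarith
  have h4 : ‖p.eval w‖ ≤ m + 2 * m * ‖w‖ / (1 - ‖w‖) := by
    have h5 : p.eval w = (m:ℂ) - ((m:ℂ) - p.eval w) := by ring
    have h6 : ‖(m:ℂ)‖ = m := by simp [abs_of_nonneg hm0]
    calc ‖p.eval w‖ = ‖(m:ℂ) - ((m:ℂ) - p.eval w)‖ := by rw [← h5]
      _ ≤ ‖(m:ℂ)‖ + ‖(m:ℂ) - p.eval w‖ := norm_sub_le _ _
      _ ≤ _ := by rw [h6]; linarith
  refine h4.trans ?_
  have h7 : m + 2 * m * ‖w‖ / (1 - ‖w‖) = (m * (1 + ‖w‖)) / (1 - ‖w‖) := by
    field_simp
    ring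
  rw [h7, div_mul_eq_mul_div]
  apply div_le_div_of_nonneg_right _ hw1.le
  nlinarith

end Pool.Agent.W333.HY.HARN
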