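import Pool.Agent.W610.HY.Stm

set_option autoImplicit false

namespace Pool.Agent.W333.HY.NZ

open Pool.Agent.W610.HY MeasureTheory Set Metric Filter Topology

/-- first resolvent identity -/
theorem res_id {𝒜 : Type} [NormedRing 𝒜] [NormedAlgebra ℂ 𝒜] (a : 𝒜) (l z : ℂ)
    (hl : l ∈ resolventSet ℂ a) (hz : z ∈ resolventSet ℂ a) :
    (z - l) • (resolvent a l * resolvent a z) = resolvent a l - resolvent a z := by
  have hl' : IsUnit (algebraMap ℂ 𝒜 l - a) := hl
  have hz' : IsUnit (algebraMap ℂ 𝒜 z - a) := hz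
  have e1 : Ring.inverse (algebraMap ℂ 𝒜 l - a) * (algebraMap ℂ 𝒜 l - a) = 1 :=
    Ring.inverse_mul_cancel _ hl'
  have e2 : (algebraMap ℂ 𝒜 z - a) * Ring.inverse (algebraMap ℂ 𝒜 z - a) = 1 :=
    Ring.mul_inverse_cancel _ hz'
  unfold resolvent
  set X := Ring.inverse (algebraMap ℂ 𝒜 l - a) with hX
  set Y := Ring.inverse (algebraMap ℂ 𝒜 z - a) with hY
  have h1 : (z - l) • (X * Y) = X * (algebraMap ℂ 𝒜 (z - l)) * Y := by
    rw [Algebra.algebraMap_eq_smul_one]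
    simp
  have h2 : algebraMap ℂ 𝒜 (z - l) = (algebraMap ℂ 𝒜 z - a) - (algebraMap ℂ 𝒜 l - a) := by
    rw [map_sub]; abel
  rw [h1, h2]
  calc X * ((algebraMap ℂ 𝒜 z - a) - (algebraMap ℂ 𝒜 l - a)) * Y
      = X * ((algebraMap ℂ 𝒜 z - a) * Y) - (X * (algebraMap ℂ 𝒜 l - a)) * Y := by noncomm_ring
    _ = X - Y := by rw [e1, e2]; simp

/-- the measure -/
noncomputable abbrev mu : Measure ℝ := volume.restrict (Ioc (0:ℝ) (2 * Real.pi))

theorem mu_real : mu.real univ = 2 * Real.pi := by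
  simp [mu, Real.pi_pos.le]

/-- the kernel -/
noncomputable def kk (c : ℂ) (r : ℝ) (h : ℝ → ℂ) (l : ℂ) (θ : ℝ) : ℂ :=
  h θ * circleMap 0 1 θ / (circleMap c r θ - l)

theorem circ_sub (c : ℂ) (r : ℝ) (θ : ℝ) : circleMap c r θ - c = r * circleMap 0 1 θ := by
  simp [circleMap]

theorem norm_u (θ : ℝ) : ‖circleMap 0 1 θ‖ = 1 := by
  simp

theorem dist_low (c : ℂ) (r : ℝ) (hr : 0 < r) (l : ℂ) (hl : ‖l - c‖ < r / 2) (θ : ℝ) :
    r / 2 ≤ ‖circleMap c r θ - l‖ := by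
  have h1 : ‖circleMap c r θ - c‖ = r := by
    rw [circ_sub, norm_mul, norm_u]
    simp [abs_of_pos hr]
  have h2 : circleMap c r θ - c = (circleMap c r θ - l) + (l - c) := by ring
  have h3 : ‖circleMap c r θ - c‖ ≤ ‖circleMap c r θ - l‖ + ‖l - c‖ := by
    calc ‖circleMap c r θ - c‖ = ‖(circleMap c r θ - l) + (l - c)‖ := by rw [← h2]
      _ ≤ ‖circleMap c r θ - l‖ + ‖l - c‖ := norm_add_le _ _
  linarith

theorem kk_meas (c : ℂ) (r : ℝ) (h : ℝ → ℂ) (hh : Measurable h) (l : ℂ) :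
    Measurable (kk c r h l) := by
  unfold kk
  have h1 : Measurable (circleMap 0 1) := (continuous_circleMap 0 1).measurable
  have h2 : Measurable (circleMap c r) := (continuous_circleMap c r).measurable
  exact (hh.mul h1).div (h2.sub measurable_const)

theorem kk_norm (c : ℂ) (r : ℝ) (hr : 0 < r) (h : ℝ → ℂ) (l : ℂ) (hl : ‖l - c‖ < r / 2) (θ : ℝ) :
    ‖kk c r h l θ‖ ≤ ‖h θ‖ * (2 / r) := by
  unfold kk
  rw [norm_div, norm_mul, norm_u, mul_one]
  have h1 := dist_low c r hr l hl θ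
  have h2 : 0 < r / 2 := by positivity
  rw [div_eq_mul_inv]
  apply mul_le_mul_of_nonneg_left _ (norm_nonneg _)
  have h3 : ‖circleMap c r θ - l‖⁻¹ ≤ (r / 2)⁻¹ := inv_anti₀ h2 h1
  calc ‖circleMap c r θ - l‖⁻¹ ≤ (r / 2)⁻¹ := h3
    _ = 2 / r := by rw [inv_div]

theorem kk_int {𝒜 : Type} [NormedRing 𝒜] [NormedAlgebra ℂ 𝒜] {a : 𝒜} {c : ℂ} {r : ℝ} {h : ℝ → ℂ}
    (hg : Good a c r h) (l : ℂ) (hl : ‖l - c‖ < r / 2) : Integrable (kk c r h l) mu := by
  refine Integrable.of_bound (kk_meas c r h hg.meas l).aestronglyMeasurable (2 / r) ?_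
  filter_upwards [hg.le_one] with θ hθ
  have h1 := kk_norm c r hg.pos h l hl θ
  have h2 : 0 < 2 / r := by have := hg.pos; positivity
  calc ‖kk c r h l θ‖ ≤ ‖h θ‖ * (2 / r) := h1
    _ ≤ 1 * (2 / r) := mul_le_mul_of_nonneg_right hθ h2.le
    _ = 2 / r := one_mul _

theorem kk_center {𝒜 : Type} [NormedRing 𝒜] [NormedAlgebra ℂ 𝒜] {a : 𝒜} {c : ℂ} {r : ℝ}
    {h : ℝ → ℂ} (hg : Good a c r h) : (∫ θ, kk c r h c θ ∂mu) ≠ 0 := by
  have hr := hg.pos
  have hr' : (r:ℂ) ≠ 0 := by exact_mod_cast hr.ne'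
  have h1 : ∀ θ, kk c r h c θ = (r:ℂ)⁻¹ * h θ := by
    intro θ
    unfold kk
    rw [circ_sub]
    have h2 : circleMap 0 1 θ ≠ 0 := by
      rw [← norm_pos_iff, norm_u]; exact one_pos
    field_simp
  simp_rw [h1]
  rw [integral_const_mul]
  apply mul_ne_zero (inv_ne_zero hr')
  have h3 := hg.ne
  rwa [intervalIntegral.integral_of_le (by positivity)] at h3

theorem kk_diff {𝒜 : Type} [NormedRing 𝒜] [NormedAlgebra ℂ 𝒜] {a : 𝒜} {c : ℂ} {r : ℝ}
    {h : ℝ → ℂ} (hg : Good a c r h) (l : ℂ) (hl : ‖l - c‖ < r / 2) :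
    ‖(∫ θ, kk c r h l θ ∂mu) - (∫ θ, kk c r h c θ ∂mu)‖ ≤
      (2 / r * (‖l - c‖ / r)) * (2 * Real.pi) := by
  have hr := hg.pos
  have hc : ‖c - c‖ < r / 2 := by simp; positivity
  rw [← integral_sub (kk_int hg l hl) (kk_int hg c hc), ← mu_real]
  apply norm_integral_le_of_norm_le_const
  filter_upwards [hg.le_one] with θ hθ
  have hu : circleMap 0 1 θ ≠ 0 := by
    rw [← norm_pos_iff, norm_u]; exact one_pos
  have hr' : (r:ℂ) ≠ 0 := by exact_mod_cast hr.ne'
  have h1 := dist_low c r hr l hl θ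
  have h2 : circleMap c r θ - l ≠ 0 := by
    rw [← norm_pos_iff]; linarith
  have h3 : kk c r h l θ - kk c r h c θ = kk c r h l θ * ((l - c) / (circleMap c r θ - c)) := by
    have h4 : circleMap c r θ - c ≠ 0 := by
      rw [circ_sub]; exact mul_ne_zero hr' hu
    unfold kk
    field_simp
    ring
  rw [h3, norm_mul, norm_div, circ_sub, norm_mul, norm_u, mul_one]
  have h5 : ‖(r:ℂ)‖ = r := by simp [abs_of_pos hr]
  rw [h5]
  apply mul_le_mul_of_nonneg_right _ (by positivity)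
  have h6 := kk_norm c r hr h l hl θ
  have h7 : 0 < 2 / r := by positivity
  calc ‖kk c r h l θ‖ ≤ ‖h θ‖ * (2 / r) := h6
    _ ≤ 1 * (2 / r) := mul_le_mul_of_nonneg_right hθ h7.le
    _ = 2 / r := one_mul _

theorem key (hMEAS : MEAS) {𝒜 : Type} [NormedRing 𝒜] [NormedAlgebra ℂ 𝒜] [CompleteSpace 𝒜]
    {a : 𝒜} {c : ℂ} {r : ℝ} {h : ℝ → ℂ} (hg : Good a c r h) (h0 : AA a c r h = 0) (l : ℂ)
    (hl : ‖l - c‖ < r / 2) (hlr : l ∈ resolventSet ℂ a) :
    ‖∫ θ, kk c r h l θ ∂mu‖ * ‖resolvent a l‖ ≤ (2 / r) * (2 * Real.pi) := by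
  have hr := hg.pos
  have hm1 : Measurable (circleMap 0 1) := (continuous_circleMap 0 1).measurable
  have hm2 : Measurable (circleMap c r) := (continuous_circleMap c r).measurable
  have hRm : StronglyMeasurable (fun θ : ℝ => resolvent a (circleMap c r θ)) :=
    (hMEAS 𝒜 a).comp_measurable hm2
  have hF0m : AEStronglyMeasurable
      (fun θ : ℝ => (h θ * circleMap 0 1 θ) • resolvent a (circleMap c r θ)) mu :=
    ((hg.meas.mul hm1).stronglyMeasurable.smul hRm).aestronglyMeasurable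
  have hF0 : Integrable
      (fun θ : ℝ => (h θ * circleMap 0 1 θ) • resolvent a (circleMap c r θ)) mu := by
    refine Integrable.of_bound hF0m 1 ?_
    filter_upwards [hg.bound] with θ hθ
    rw [norm_smul, norm_mul, norm_u, mul_one]
    exact hθ
  have h0' : (∫ θ, (h θ * circleMap 0 1 θ) • resolvent a (circleMap c r θ) ∂mu) = 0 := by
    unfold AA at h0
    rwa [intervalIntegral.integral_of_le (by positivity)] at h0
  have hkint := kk_int hg l hl
  have hid : ∀ᵐ θ ∂mu, kk c r h l θ • resolvent a (circleMap c r θ) =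
      kk c r h l θ • resolvent a l -
        resolvent a l * ((h θ * circleMap 0 1 θ) • resolvent a (circleMap c r θ)) := by
    filter_upwards [hg.res] with θ hθ
    have h1 := dist_low c r hr l hl θ
    have h2 : circleMap c r θ - l ≠ 0 := by
      rw [← norm_pos_iff]; linarith
    have h3 := res_id a l (circleMap c r θ) hlr hθ
    have h4 : h θ * circleMap 0 1 θ = kk c r h l θ * (circleMap c r θ - l) := by
      unfold kk
      field_simp
    rw [h4, mul_smul_comm, mul_smul, h3, smul_sub]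
    abel
  have hint : (∫ θ, kk c r h l θ • resolvent a (circleMap c r θ) ∂mu) =
      (∫ θ, kk c r h l θ ∂mu) • resolvent a l := by
    rw [integral_congr_ae hid, integral_sub]
    · rw [integral_smul_const]
      have h5 : (∫ θ, resolvent a l *
          ((h θ * circleMap 0 1 θ) • resolvent a (circleMap c r θ)) ∂mu) =
          resolvent a l *
            (∫ θ, ((h θ * circleMap 0 1 θ) • resolvent a (circleMap c r θ)) ∂mu) := by
        have := (ContinuousLinearMap.mul ℂ 𝒜 (resolvent a l)).integral_comp_comm hF0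
        simpa using this
      rw [h5, h0', mul_zero, sub_zero]
    · exact hkint.smul_const _
    · have := (ContinuousLinearMap.mul ℂ 𝒜 (resolvent a l)).integrable_comp hF0
      simpa using this
  rw [← norm_smul, ← hint, ← mu_real]
  apply norm_integral_le_of_norm_le_const
  filter_upwards [hg.bound] with θ hθ
  rw [norm_smul]
  have h6 := kk_norm c r hr h l hl θ
  have h7 : 0 < 2 / r := by positivity
  calc ‖kk c r h l θ‖ * ‖resolvent a (circleMap c r θ)‖
      ≤ (‖h θ‖ * (2 / r)) * ‖resolvent a (circleMap c r θ)‖ :=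
        mul_le_mul_of_nonneg_right h6 (norm_nonneg _)
    _ = (2 / r) * (‖h θ‖ * ‖resolvent a (circleMap c r θ)‖) := by ring
    _ ≤ (2 / r) * 1 := mul_le_mul_of_nonneg_left hθ h7.le
    _ = 2 / r := mul_one _

theorem main (hRES : RES) (hMEAS : MEAS) : NZ := by
  intro 𝒜 _ _ _ a c r h hg hcs hcl h0
  have hr := hg.pos
  have hpi := Real.pi_pos
  set I0 : ℂ := ∫ θ, kk c r h c θ ∂mu with hI0
  have hI0ne : I0 ≠ 0 := kk_center hg
  have hI0pos : 0 < ‖I0‖ := norm_pos_iff.mpr hI0ne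
  -- the size of the neighbourhood
  set C1 : ℝ := (2 / r) * (2 * Real.pi) / r with hC1
  have hC1pos : 0 < C1 := by positivity
  set K : ℝ := (2 / r) * (2 * Real.pi) * (2 / ‖I0‖) with hK
  have hKpos : 0 < K := by positivity
  set d : ℝ := min (r / 2) (min (‖I0‖ / 2 / C1) (1 / (K + 1))) with hd
  have hdpos : 0 < d := by
    rw [hd]
    refine lt_min (by positivity) (lt_min (by positivity) (by positivity))
  obtain ⟨l, hlr, hld⟩ := Metric.mem_closure_iff.mp hcl d hdpos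
  rw [dist_comm, dist_eq_norm] at hld
  have hl1 : ‖l - c‖ < r / 2 := lt_of_lt_of_le hld (min_le_left _ _)
  have hl2 : ‖l - c‖ < ‖I0‖ / 2 / C1 :=
    lt_of_lt_of_le hld ((min_le_right _ _).trans (min_le_left _ _))
  have hl3 : ‖l - c‖ < 1 / (K + 1) :=
    lt_of_lt_of_le hld ((min_le_right _ _).trans (min_le_right _ _))
  have hkey := key hMEAS hg h0 l hl1 hlr
  have hdiff := kk_diff hg l hl1
  set Il : ℂ := ∫ θ, kk c r h l θ ∂mu with hIl
  have e1 : (2 / r * (‖l - c‖ / r)) * (2 * Real.pi) = C1 * ‖l - c‖ := by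
    rw [hC1]; ring
  rw [e1] at hdiff
  have e2 : C1 * ‖l - c‖ < ‖I0‖ / 2 := by
    have := mul_lt_mul_of_pos_left hl2 hC1pos
    calc C1 * ‖l - c‖ < C1 * (‖I0‖ / 2 / C1) := this
      _ = ‖I0‖ / 2 := by field_simp
  have e3 : ‖I0‖ / 2 ≤ ‖Il‖ := by
    have h1 : ‖I0‖ ≤ ‖Il‖ + ‖Il - I0‖ := by
      calc ‖I0‖ = ‖Il - (Il - I0)‖ := by congr 1; ring
        _ ≤ ‖Il‖ + ‖Il - I0‖ := norm_sub_le _ _
    linarith
  have e4 : ‖resolvent a l‖ ≤ K := by
    have h1 : ‖I0‖ / 2 * ‖resolvent a l‖ ≤ (2 / r) * (2 * Real.pi) :=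
      (mul_le_mul_of_nonneg_right e3 (norm_nonneg _)).trans hkey
    calc ‖resolvent a l‖ = (‖I0‖ / 2 * ‖resolvent a l‖) * (2 / ‖I0‖) := by field_simp
      _ ≤ (2 / r) * (2 * Real.pi) * (2 / ‖I0‖) :=
        mul_le_mul_of_nonneg_right h1 (by positivity)
  have e5 := hRES 𝒜 a l c hlr hcs
  have e6 : ‖l - c‖ * ‖resolvent a l‖ ≤ 1 / (K + 1) * K :=
    mul_le_mul hl3.le e4 (norm_nonneg _) (by positivity)
  have e7 : 1 / (K + 1) * K < 1 := by
    rw [div_mul_eq_mul_div, one_mul, div_lt_one (by positivity)]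
    linarith
  linarith

end Pool.Agent.W333.HY.NZ
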